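import Pool.Agent.Helper10.BD.Goals

/-!
# Project BD (MP_eec6f5_gt), packet MOB: the exact diffeomorphism
-/

set_option autoImplicit false

open scoped ContDiff
open Real Filter Topology

namespace Pool.Agent.Helper57.BD.MOB

open Pool.Agent.Helper10.BD
open Pool.Agent.Helper50.BC (E G_CHI)

/-- the denominator -/
noncomputable def dd (n μ τ : ℝ) : ℝ := √n * (1 + √n) + (μ - n) * τ

/-- the quotient `a/q` -/
noncomputable def bb (n μ τ : ℝ) : ℝ := μ * (1 + √n) / dd n μ τ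

/-- the square of the factor `A` -/
noncomputable def ff (n μ τ : ℝ) : ℝ := 729 / 20000 * (bb n μ τ * (2 + bb n μ τ * τ))

/-- the factor `A` -/
noncomputable def al (n μ τ : ℝ) : ℝ := √(ff n μ τ)

lemma bb_pos {n μ τ : ℝ} (hμ : 0 < μ) (hd : 0 < dd n μ τ) : 0 < bb n μ τ := by
  have := Real.sqrt_nonneg n
  unfold bb
  positivity

lemma ff_pos {n μ τ : ℝ} (hμ : 0 < μ) (hτ : 0 ≤ τ) (hd : 0 < dd n μ τ) : 0 < ff n μ τ := by
  have := bb_pos hμ hd
  unfold ff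
  positivity

lemma al_deriv {n μ τ : ℝ} (hn : 0 < n) (hμ : 0 < μ) (hτ : 0 ≤ τ) (hd : 0 < dd n μ τ) :
    ∃ a' : ℝ, HasDerivAt (al n μ) a' τ ∧ 0 < al n μ τ ∧ al n μ τ + 2 * a' * τ ≠ 0 := by
  have hm : 0 < √n := Real.sqrt_pos.2 hn
  have hdd : HasDerivAt (dd n μ) (μ - n) τ := by
    have h0 := ((hasDerivAt_id τ).const_mul (μ - n)).const_add (√n * (1 + √n))
    rw [mul_one] at h0
    exact h0
  have hbb : HasDerivAt (bb n μ) (-(μ * (1 + √n) * (μ - n)) / dd n μ τ ^ 2) τ := by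
    have h0 := (hasDerivAt_const τ (μ * (1 + √n))).div hdd hd.ne'
    rw [zero_mul, zero_sub] at h0
    exact h0
  obtain ⟨b', hb'⟩ : ∃ b', b' = -(μ * (1 + √n) * (μ - n)) / dd n μ τ ^ 2 := ⟨_, rfl⟩
  rw [← hb'] at hbb
  have hff : HasDerivAt (ff n μ)
      (729 / 20000 * (b' * (2 + bb n μ τ * τ) + bb n μ τ * (b' * τ + bb n μ τ * 1))) τ := by
    have h1 := (hbb.mul (hasDerivAt_id τ)).const_add 2
    have h2 := (hbb.mul h1).const_mul (729 / 20000)
    exact h2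
  have hfp := ff_pos hμ hτ hd
  have hal := hff.sqrt hfp.ne'
  refine ⟨_, hal, Real.sqrt_pos.2 hfp, ?_⟩
  have hs : 0 < √(ff n μ τ) := Real.sqrt_pos.2 hfp
  have hbp := bb_pos hμ hd
  have hkey : 0 < ff n μ τ + τ *
      (729 / 20000 * (b' * (2 + bb n μ τ * τ) + bb n μ τ * (b' * τ + bb n μ τ * 1))) := by
    have h1 : bb n μ τ + τ * b' = μ * (1 + √n) * (√n * (1 + √n)) / dd n μ τ ^ 2 := by
      have h2 : √n * (1 + √n) = dd n μ τ - (μ - n) * τ := by unfold dd; ring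
      rw [hb', h2]
      have h3 : bb n μ τ = μ * (1 + √n) / dd n μ τ := rfl
      rw [h3]
      field_simp
      ring
    have h2 : 0 < bb n μ τ + τ * b' := by
      rw [h1]; positivity
    have h3 : ff n μ τ + τ *
      (729 / 20000 * (b' * (2 + bb n μ τ * τ) + bb n μ τ * (b' * τ + bb n μ τ * 1)))
        = 729 / 20000 * ((bb n μ τ + τ * b') * (2 + 2 * (bb n μ τ * τ))) := by
      have h4 : ff n μ τ = 729 / 20000 * (bb n μ τ * (2 + bb n μ τ * τ)) := rfl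
      rw [h4]; ring
    rw [h3]; positivity
  have h5 : al n μ τ = √(ff n μ τ) := rfl
  obtain ⟨F', hF'⟩ : ∃ F', F' =
    (729 / 20000 * (b' * (2 + bb n μ τ * τ) + bb n μ τ * (b' * τ + bb n μ τ * 1))) := ⟨_, rfl⟩
  rw [← hF'] at hkey ⊢
  rw [h5]
  have h6 : √(ff n μ τ) + 2 * (F' / (2 * √(ff n μ τ))) * τ
      = (ff n μ τ + τ * F') / √(ff n μ τ) := by
    have h7 : √(ff n μ τ) * √(ff n μ τ) = ff n μ τ := Real.mul_self_sqrt hfp.le
    rw [eq_div_iff hs.ne']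
    field_simp
    nlinarith
  rw [h6]
  positivity

/-- the map `θ` -/
noncomputable def th {q r : ℕ} (l : ℝ) (ν μ : E q → ℝ) (w : E q × E r) : E q × E r :=
  (l • w.1, al (ν w.1) (μ w.1) (‖w.2‖ ^ 2) • w.2)

/-- the open set -/
def OO {q : ℕ} (r : ℕ) (ν μ : E q → ℝ) : Set (E q × E r) :=
  {w | 0 < ν w.1 ∧ 0 < μ w.1 ∧ 0 < dd (ν w.1) (μ w.1) (‖w.2‖ ^ 2)}

/-- the function `z` -/
noncomputable def zz {q r : ℕ} (l : ℝ) (P ν μ : E q → ℝ) (w : E q × E r) : ℝ :=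
  27 / 10 * (P (l • w.1) - (bb (ν w.1) (μ w.1) (‖w.2‖ ^ 2) * ‖w.2‖ ^ 2 - 1) ^ 2)

/-- the function `g` -/
noncomputable def gg {q r : ℕ} (χ : ℝ → ℝ) (l : ℝ) (P ν μ : E q → ℝ) (w : E q × E r) : ℝ :=
  √(27 / 1000 * (χ (zz l P ν μ w) * μ w.1)) *
    (√(ν w.1) * (1 + √(ν w.1)) / dd (ν w.1) (μ w.1) (‖w.2‖ ^ 2))

lemma isOpen_OO {q r : ℕ} {ν μ : E q → ℝ} (hν : Continuous ν) (hμ : Continuous μ) :
    IsOpen (OO r ν μ) := by
  have h1 : Continuous fun w : E q × E r => ν w.1 := hν.comp continuous_fst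
  have h2 : Continuous fun w : E q × E r => μ w.1 := hμ.comp continuous_fst
  have h3 : Continuous fun w : E q × E r => dd (ν w.1) (μ w.1) (‖w.2‖ ^ 2) := by
    unfold dd
    exact (h1.sqrt.mul (continuous_const.add h1.sqrt)).add
      ((h2.sub h1).mul (continuous_snd.norm.pow 2))
  have e : OO r ν μ = {w | 0 < ν w.1} ∩ ({w | 0 < μ w.1} ∩
      {w : E q × E r | 0 < dd (ν w.1) (μ w.1) (‖w.2‖ ^ 2)}) := by
    ext w; rfl
  rw [e]
  exact (isOpen_lt continuous_const h1).inter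
    ((isOpen_lt continuous_const h2).inter (isOpen_lt continuous_const h3))

section smooth
variable {q r : ℕ} {ν μ : E q → ℝ} {w : E q × E r}

lemma cd_ns : ContDiffAt ℝ ∞ (fun w : E q × E r => ‖w.2‖ ^ 2) w :=
  (contDiff_snd.norm_sq ℝ).contDiffAt

lemma cd_fst {ν : E q → ℝ} (hν : ContDiff ℝ ∞ ν) :
    ContDiffAt ℝ ∞ (fun w : E q × E r => ν w.1) w :=
  (hν.comp contDiff_fst).contDiffAt

lemma cd_sq (hν : ContDiff ℝ ∞ ν) (h : 0 < ν w.1) :
    ContDiffAt ℝ ∞ (fun w : E q × E r => √(ν w.1)) w :=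
  (cd_fst hν).sqrt h.ne'

lemma cd_dd (hν : ContDiff ℝ ∞ ν) (hμ : ContDiff ℝ ∞ μ) (h : w ∈ OO r ν μ) :
    ContDiffAt ℝ ∞ (fun w : E q × E r => dd (ν w.1) (μ w.1) (‖w.2‖ ^ 2)) w := by
  unfold dd
  exact ((cd_sq hν h.1).mul (contDiffAt_const.add (cd_sq hν h.1))).add
    (((cd_fst hμ).sub (cd_fst hν)).mul cd_ns)

lemma cd_bb (hν : ContDiff ℝ ∞ ν) (hμ : ContDiff ℝ ∞ μ) (h : w ∈ OO r ν μ) :
    ContDiffAt ℝ ∞ (fun w : E q × E r => bb (ν w.1) (μ w.1) (‖w.2‖ ^ 2)) w := by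
  unfold bb
  exact ((cd_fst hμ).mul (contDiffAt_const.add (cd_sq hν h.1))).div (cd_dd hν hμ h) h.2.2.ne'

lemma cd_al (hν : ContDiff ℝ ∞ ν) (hμ : ContDiff ℝ ∞ μ) (h : w ∈ OO r ν μ) :
    ContDiffAt ℝ ∞ (fun w : E q × E r => al (ν w.1) (μ w.1) (‖w.2‖ ^ 2)) w := by
  unfold al
  have h0 : ff (ν w.1) (μ w.1) (‖w.2‖ ^ 2) ≠ 0 := (ff_pos h.2.1 (by positivity) h.2.2).ne'
  refine ContDiffAt.sqrt ?_ h0
  unfold ff
  exact contDiffAt_const.mul
    ((cd_bb hν hμ h).mul (contDiffAt_const.add ((cd_bb hν hμ h).mul cd_ns)))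

lemma cd_th (l : ℝ) (hν : ContDiff ℝ ∞ ν) (hμ : ContDiff ℝ ∞ μ) (h : w ∈ OO r ν μ) :
    ContDiffAt ℝ ∞ (th (r := r) l ν μ) w := by
  unfold th
  exact (contDiff_fst.contDiffAt.const_smul l).prodMk
    ((cd_al hν hμ h).smul contDiff_snd.contDiffAt)

lemma cd_gg {χ : ℝ → ℝ} {l : ℝ} {P : E q → ℝ} (hχ : ContDiff ℝ ∞ χ) (hχp : ∀ t, 0 < χ t)
    (hP : ContDiff ℝ ∞ P) (hν : ContDiff ℝ ∞ ν) (hμ : ContDiff ℝ ∞ μ) (h : w ∈ OO r ν μ) :
    ContDiffAt ℝ ∞ (gg (r := r) χ l P ν μ) w := by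
  have hz : ContDiffAt ℝ ∞ (zz (r := r) l P ν μ) w := by
    unfold zz
    have h1 : ContDiffAt ℝ ∞ (fun w : E q × E r => P (l • w.1)) w :=
      (hP.comp (contDiff_fst.const_smul l)).contDiffAt
    exact contDiffAt_const.mul
      (h1.sub ((((cd_bb hν hμ h).mul cd_ns).sub contDiffAt_const).pow 2))
  unfold gg
  have h0 : 27 / 1000 * (χ (zz l P ν μ w) * μ w.1) ≠ 0 := by
    have := hχp (zz l P ν μ w)
    have := h.2.1
    positivity
  refine ContDiffAt.mul (ContDiffAt.sqrt ?_ h0) ?_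
  · exact contDiffAt_const.mul ((hχ.contDiffAt.comp w hz).mul (cd_fst hμ))
  · exact ((cd_sq hν h.1).mul (contDiffAt_const.add (cd_sq hν h.1))).div
      (cd_dd hν hμ h) h.2.2.ne'

end smooth

/-- injectivity of the differential -/
lemma th_inj {q r : ℕ} {l : ℝ} {ν μ : E q → ℝ} {w : E q × E r} (hl : 0 < l)
    (hν : ContDiff ℝ ∞ ν) (hμ : ContDiff ℝ ∞ μ) (h : w ∈ OO r ν μ) (ξ : E q × E r)
    (h0 : fderiv ℝ (th (r := r) l ν μ) w ξ = 0) : ξ = 0 := by
  have hd : HasFDerivAt (th (r := r) l ν μ) (fderiv ℝ (th (r := r) l ν μ) w) w :=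
    ((cd_th l hν hμ h).differentiableAt (by simp)).hasFDerivAt
  -- first component
  have h1 : ξ.1 = 0 := by
    have e1 : HasFDerivAt (fun w => (th (r := r) l ν μ w).1)
        ((ContinuousLinearMap.fst ℝ (E q) (E r)).comp (fderiv ℝ (th (r := r) l ν μ) w)) w :=
      (ContinuousLinearMap.fst ℝ (E q) (E r)).hasFDerivAt.comp w hd
    have e2 : HasFDerivAt (fun w : E q × E r => l • w.1)
        (l • ContinuousLinearMap.fst ℝ (E q) (E r)) w :=
      (ContinuousLinearMap.fst ℝ (E q) (E r)).hasFDerivAt.const_smul l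
    have e3 := e1.unique e2
    have e4 := congrArg (fun T : (E q × E r) →L[ℝ] E q => T ξ) e3
    simp only [ContinuousLinearMap.comp_apply, h0, map_zero, smul_apply,
      ContinuousLinearMap.coe_fst'] at e4
    exact (smul_eq_zero.1 e4.symm).resolve_left hl.ne'
  obtain ⟨ξ1, η⟩ := ξ
  obtain ⟨x, y⟩ := w
  simp only at h1
  subst h1
  obtain ⟨a', ha', hap, hne⟩ := al_deriv h.1 h.2.1 (by positivity : (0 : ℝ) ≤ ‖y‖ ^ 2) h.2.2
  simp only at ha' hap hne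
  have hc : HasDerivAt (fun s : ℝ => ((x, y + s • η) : E q × E r)) ((0 : E q), η) 0 := by
    have e1 : HasDerivAt (fun s : ℝ => y + s • η) η 0 := by
      have e2 := ((hasDerivAt_id (0 : ℝ)).smul_const η).const_add y
      rw [one_smul] at e2
      exact e2
    exact (hasDerivAt_const (0 : ℝ) x).prodMk e1
  have hτ : HasDerivAt (fun s : ℝ => ‖y + s • η‖ ^ 2) (2 * inner ℝ y η) 0 := by
    have e1 : HasDerivAt (fun s : ℝ => y + s • η) η 0 := by
      have e2 := ((hasDerivAt_id (0 : ℝ)).smul_const η).const_add y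
      rw [one_smul] at e2
      exact e2
    have e3 := e1.norm_sq
    simp only [zero_smul, add_zero] at e3
    exact e3
  have hcomp : HasDerivAt (fun s : ℝ => (th (r := r) l ν μ (x, y + s • η)).2)
      ((fderiv ℝ (th (r := r) l ν μ) (x, y) ((0 : E q), η)).2) 0 := by
    have e0 : (fun s : ℝ => ((x, y + s • η) : E q × E r)) 0 = (x, y) := by simp
    have e1 : HasFDerivAt (th (r := r) l ν μ) (fderiv ℝ (th (r := r) l ν μ) (x, y))
        ((fun s : ℝ => ((x, y + s • η) : E q × E r)) 0) := by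
      rw [e0]; exact hd
    have e2 := e1.comp_hasDerivAt (0 : ℝ) hc
    exact (ContinuousLinearMap.snd ℝ (E q) (E r)).hasFDerivAt.comp_hasDerivAt (0 : ℝ) e2
  rw [h0] at hcomp
  have hcomp2 : HasDerivAt (fun s : ℝ => (th (r := r) l ν μ (x, y + s • η)).2)
      (al (ν x) (μ x) (‖y‖ ^ 2) • η + (a' * (2 * inner ℝ y η)) • y) 0 := by
    have e0 : (fun s : ℝ => ‖y + s • η‖ ^ 2) 0 = ‖y‖ ^ 2 := by simp
    have e1 : HasDerivAt (al (ν x) (μ x)) a' ((fun s : ℝ => ‖y + s • η‖ ^ 2) 0) := by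
      rw [e0]; exact ha'
    have e2 : HasDerivAt (al (ν x) (μ x) ∘ fun s : ℝ => ‖y + s • η‖ ^ 2)
        (a' * (2 * inner ℝ y η)) 0 := HasDerivAt.comp (0 : ℝ) e1 hτ
    have e3 : HasDerivAt (fun s : ℝ => y + s • η) η 0 := by
      have e2 := ((hasDerivAt_id (0 : ℝ)).smul_const η).const_add y
      rw [one_smul] at e2
      exact e2
    have e4 := e2.smul e3
    simp only [Function.comp_apply, zero_smul, add_zero] at e4
    exact e4
  have heq := hcomp2.unique hcomp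
  simp only [Prod.snd_zero] at heq
  have hin : (al (ν x) (μ x) (‖y‖ ^ 2) + 2 * a' * ‖y‖ ^ 2) * inner ℝ y η = 0 := by
    have e1 := congrArg (fun v : E r => inner ℝ y v) heq
    simp only [inner_add_right, inner_smul_right, inner_zero_right,
      real_inner_self_eq_norm_sq] at e1
    linarith
  have hin2 : inner ℝ y η = 0 := (mul_eq_zero.1 hin).resolve_left hne
  rw [hin2, mul_zero, mul_zero, zero_smul, add_zero] at heq
  have hη : η = 0 := (smul_eq_zero.1 heq).resolve_left hap.ne'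
  rw [hη]
  rfl

theorem t (hc : G_CHI) (h : G_MBA) : G_MOB := by
  intro q r u l P ν μ hu hP hN
  obtain ⟨hl, hν, hμ, hpos, hPν, hPμ⟩ := hN
  obtain ⟨χ, hχ, hχp, hχe⟩ := hc
  have hrel : ∀ x, 0 < ν x → √(ν x) ^ 2 * u x = 1 - μ x * (1 - u x) := by
    intro x hx
    rw [Real.sq_sqrt hx.le]
    have h1 := hPν x
    have h2 := hPμ x
    linarith
  have hq : ∀ n m τ : ℝ, 0 < n → 1 + (m - √n ^ 2) / (√n * (1 + √n)) * τ
      = dd n m τ / (√n * (1 + √n)) := by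
    intro n m τ hn
    have hs : 0 < √n := Real.sqrt_pos.2 hn
    rw [Real.sq_sqrt hn.le]
    unfold dd
    field_simp
  refine ⟨OO r ν μ, th l ν μ, gg χ l P ν μ, isOpen_OO hν.continuous hμ.continuous, ?_, ?_, ?_, ?_⟩
  · intro w hw
    have h0 : (‖w.2‖ ^ 2 - 1) ^ 2 ≤ u w.1 := by
      unfold HH at hw; linarith
    have h1 : 0 ≤ u w.1 := le_trans (by positivity) h0
    obtain ⟨h2, h3⟩ := hpos w.1 h1
    have hs : 0 < √(ν w.1) := Real.sqrt_pos.2 h2
    have h4 := (h (√(ν w.1)) (μ w.1) (u w.1) (‖w.2‖ ^ 2) hs h3 (hrel _ h2)).2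
      (by positivity) h0
    rw [hq _ _ _ h2] at h4
    refine ⟨h2, h3, ?_⟩
    have h5 : 0 < √(ν w.1) * (1 + √(ν w.1)) := by positivity
    exact (div_pos_iff_of_pos_right h5).1 h4
  · exact fun w hw => (cd_th l hν hμ hw).contDiffWithinAt
  · exact fun w hw => (cd_gg hχ hχp hP hν hμ hw).contDiffWithinAt
  · intro w hw
    obtain ⟨h1, h2, h3⟩ := id hw
    have hs : 0 < √(ν w.1) := Real.sqrt_pos.2 h1
    refine ⟨?_, ?_, ?_⟩
    · have := hχp (zz l P ν μ w)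
      unfold gg
      positivity
    · have hinj : Function.Injective (fderiv ℝ (th (r := r) l ν μ) w) := by
        rw [injective_iff_map_eq_zero]
        exact fun ξ hξ => th_inj hl hν hμ hw ξ hξ
      exact (LinearMap.injective_iff_surjective
        (f := (fderiv ℝ (th (r := r) l ν μ) w : (E q × E r) →ₗ[ℝ] (E q × E r)))).1 hinj
    · set τ : ℝ := ‖w.2‖ ^ 2 with hτ
      have hτ0 : 0 ≤ τ := by positivity
      have hbp : 0 < bb (ν w.1) (μ w.1) τ := bb_pos h2 h3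
      have hfp : 0 < ff (ν w.1) (μ w.1) τ := ff_pos h2 hτ0 h3
      have hsY : sY (th l ν μ w).2 = 1 + bb (ν w.1) (μ w.1) τ * τ := by
        unfold sY th
        simp only
        rw [norm_smul, mul_pow, Real.norm_eq_abs, sq_abs]
        unfold al
        rw [Real.sq_sqrt hfp.le, ← hτ]
        unfold ff
        have : 1 + 20000 / 729 * (729 / 20000 * (bb (ν w.1) (μ w.1) τ *
            (2 + bb (ν w.1) (μ w.1) τ * τ)) * τ) = (1 + bb (ν w.1) (μ w.1) τ * τ) ^ 2 := by ring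
        rw [this, Real.sqrt_sq (by positivity)]
      have hQ : QY (th l ν μ w).2 = (bb (ν w.1) (μ w.1) τ * τ - 1) ^ 2 := by
        unfold QY
        rw [hsY]; ring
      have hz : zz l P ν μ w = 27 / 10 * (P (l • w.1) - QY (th l ν μ w).2) := by
        rw [hQ]; rfl
      have hPhi : Phi r P (th l ν μ w) = 1 / 100 * (zz l P ν μ w * χ (zz l P ν μ w)) := by
        rw [hχe, hz]
        rfl
      rw [hPhi]
      have hq0 := hq (ν w.1) (μ w.1) τ h1
      have h5 : 0 < √(ν w.1) * (1 + √(ν w.1)) := by positivity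
      have h3' : 0 < dd (ν w.1) (μ w.1) τ := h3
      have hMB := (h (√(ν w.1)) (μ w.1) (u w.1) τ hs h2 (hrel _ h1)).1 (by
        rw [hq0]; positivity)
      rw [hq0] at hMB
      have hb : μ w.1 / √(ν w.1) * τ / (dd (ν w.1) (μ w.1) τ / (√(ν w.1) * (1 + √(ν w.1))))
          = bb (ν w.1) (μ w.1) τ * τ := by
        unfold bb
        field_simp
      rw [hb, Real.sq_sqrt h1.le, ← hPν] at hMB
      have hz2 : zz l P ν μ w = 27 / 10 * (μ w.1 * HH u w /
          (dd (ν w.1) (μ w.1) τ / (√(ν w.1) * (1 + √(ν w.1)))) ^ 2) := by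
        have : HH u w = u w.1 - (τ - 1) ^ 2 := rfl
        rw [this, ← hMB]
        rfl
      have hg : gg χ l P ν μ w ^ 2 = 27 / 1000 * (χ (zz l P ν μ w) * μ w.1) /
          (dd (ν w.1) (μ w.1) τ / (√(ν w.1) * (1 + √(ν w.1)))) ^ 2 := by
        have hχ0 := hχp (zz l P ν μ w)
        unfold gg
        rw [mul_pow, Real.sq_sqrt (by positivity), ← hτ]
        have : √(ν w.1) * (1 + √(ν w.1)) / dd (ν w.1) (μ w.1) τ
            = (dd (ν w.1) (μ w.1) τ / (√(ν w.1) * (1 + √(ν w.1))))⁻¹ := by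
          rw [inv_div]
        rw [this, inv_pow]
        ring
      rw [hg]
      obtain ⟨c, hcc⟩ : ∃ c, c = χ (zz l P ν μ w) := ⟨_, rfl⟩
      rw [← hcc, hz2]
      ring

end Pool.Agent.Helper57.BD.MOB
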